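import Pool.Agent.MP_66cee2_co.B2E.Spec
import Pool.Agent.MP_66cee2_co.B2K.H7Ga

/-
Base two with an explicit threshold.
-/

namespace Pool.Agent.MP_66cee2_co.B2K

open Filter

theorem sApxE : SApxE := by
  filter_upwards [evge 4998 le_rfl] with l hl a h1 h2
  have l1 : (4998 : ℝ) ≤ l := by exact_mod_cast hl
  obtain ⟨r, hr, h⟩ := H7.gaA l (by omega) a (by linarith) (by linarith)
  refine ⟨_, r, hr, fun k => (h k).trans ?_⟩
  have e : Real.exp (-(73 / 100 * (l : ℝ))) =
      Real.exp (l / 100) * Real.exp (-(37 / 50 * l)) := by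
    rw [← Real.exp_add]
    congr 1
    ring
  rw [e]
  refine mul_le_mul_of_nonneg_right ?_ (Real.exp_pos _).le
  have h3 := Real.pow_div_factorial_le_exp ((l : ℝ) / 100) (by positivity) 4
  have f : ((Nat.factorial 4 : ℕ) : ℝ) = 24 := by norm_num [Nat.factorial]
  rw [f] at h3
  have x1 : (40 : ℝ) ≤ l / 100 := by linarith
  have x2 := pow_le_pow_left₀ (by norm_num) x1 3
  refine le_trans ?_ h3
  rw [le_div_iff₀ (by norm_num), pow_succ]
  nlinarith [mul_le_mul_of_nonneg_right x2 (show (0 : ℝ) ≤ l / 100 by positivity)]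

end Pool.Agent.MP_66cee2_co.B2K
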