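import Pool.Agent.MP_66cee2_co.B2E.Spec
import Pool.Agent.MP_66cee2_co.B2K.Fin

/-
Base two with an explicit threshold.
-/

namespace Pool.Agent.MP_66cee2_co.B2K

open MeasureTheory Set Filter Metric Topology Polynomial Pool.Agent.MP_66cee2_co.X
  Pool.Agent.MP_66cee2_co.XI Pool.Agent.MP_66cee2_co.B

theorem sFinE : SCS → SZero → SOne → SLP → SNearE → SFinE := by
  intro hCS hZ hO hLP hN
  filter_upwards [hN] with l hN ι _ Y u v hu hv h1 h2 hF
  have l0 : (0 : ℝ) ≤ l := Nat.cast_nonneg l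
  set D : ℝ := 2 * l + 3 with hD
  have D3 : 3 ≤ D := by linarith
  have D0 : 0 < D := by linarith
  have b0 : 0 < bb l := by unfold bb; positivity
  have i1 : 1 / D ≤ 1 / 3 := one_div_le_one_div_of_le (by norm_num) D3
  have i0 : 0 < 1 / D := by positivity
  set lam : ℝ := 1 - 1 / D with hlam
  have lam0 : 0 < lam := by linarith
  have lam1 : lam < 1 := by linarith
  have q1 : 1 / D ≤ 1 - lam ^ 2 := by nlinarith
  have q0 : 0 < 1 - lam ^ 2 := by linarith
  have a0 : 0 < bb l * lam / (1 - lam ^ 2) := by positivity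
  have a1 : bb l * lam / (1 - lam ^ 2) ≤ 1 / D := by
    rw [div_le_iff₀ q0]
    have : bb l = 1 / D * (1 / D) := by unfold bb; rw [← hD]; field_simp
    rw [this]
    nlinarith [mul_pos i0 i0]
  obtain ⟨κ, r, hr, n1, n2⟩ := hN _ a0 a1
  set f : ι × ι → E (2 * l + 3) → ℝ := fun p x => u p.1 x * u p.2 x with hf
  have sf : ∀ x y, ∑ p, f p x * f p y = (∑ i, u i x * u i y) ^ 2 := fun x y => by
    rw [sq, Finset.sum_mul_sum, Fintype.sum_prod_type]
    refine Finset.sum_congr rfl fun i _ => Finset.sum_congr rfl fun j _ => ?_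
    simp only [hf]; ring
  have bf : Bd Y f 4 := by
    refine ⟨hu.ms, hu.bdd, fun p => (hu.meas _).mul (hu.meas _), fun x hx => ?_⟩
    have e := sf x x
    simp only [← sq] at e
    rw [e]
    have := hu.sq x hx
    have := h1 x hx
    nlinarith
  have s0 : (0 : ℝ) < 1 / 2 ^ l := by positivity
  have s1 : (1 : ℝ) / 2 ^ l ≤ 1 := by
    rw [div_le_one (by positivity)]; exact one_le_pow₀ (by norm_num)
  have s2 : ((1 : ℝ) / 2 ^ l) ^ 2 = 1 / 4 ^ l := by
    rw [div_pow, ← pow_mul, mul_comm, pow_mul]; norm_num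
  have bg : Bd Y (fun _ : Unit => fun x => v x ^ 2) (1 / 4 ^ l) := by
    refine ⟨hu.ms, hu.bdd, fun _ => hv.pow_const 2, fun x hx => ?_⟩
    rw [← s2]
    simpa using pow_le_pow_left₀ (sq_nonneg _) (h2 x hx) 2
  obtain ⟨B, hB⟩ := hF
  have fl : ∀ x ∈ Y, ∀ y ∈ Y, |∑ p, f p x * f p y - ∑ _j : Unit, v x ^ 2 * v y ^ 2| ≤
      3 * B * |‖x - y‖ ^ 2 - 1| ^ (l + 2) := fun x hx y hy => by
    have c1 := Finset.sum_mul_sq_le_sq_mul_sq Finset.univ (fun i => u i x) (fun i => u i y)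
    have c2 : (∑ i, u i x ^ 2) * ∑ i, u i y ^ 2 ≤ 2 ^ 2 := by
      have := hu.sq x hx
      have := hu.sq y hy
      have := h1 x hx
      have := h1 y hy
      nlinarith
    have c3 : |∑ i, u i x * u i y| ≤ 2 := abs_le_of_sq_le_sq (c1.trans c2) (by norm_num)
    have c4 : |v x * v y| ≤ 1 := by
      refine abs_le_of_sq_le_sq ?_ (by norm_num)
      have := (h2 x hx).trans s1
      have := (h2 y hy).trans s1
      nlinarith [sq_nonneg (v x), sq_nonneg (v y)]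
    have c5 : |∑ i, u i x * u i y + v x * v y| ≤ 3 := (abs_add_le _ _).trans (by linarith)
    have c6 := hB x hx y hy
    have e : ∑ p, f p x * f p y - ∑ _j : Unit, v x ^ 2 * v y ^ 2 =
        (∑ i, u i x * u i y + v x * v y) * (∑ i, u i x * u i y - v x * v y) := by
      rw [sf]; simp only [Finset.univ_unique, Finset.sum_singleton]; ring
    rw [e, abs_mul, mul_assoc]
    exact mul_le_mul c5 c6 (abs_nonneg _) (by norm_num)
  have k1 := hLP l (ι × ι) Unit Y f (fun _ x => v x ^ 2) 4 (1 / 4 ^ l) (3 * B) (bb l) lam κ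
    (200 * D ^ 4 / 4 ^ l) 5 r bf bg (by norm_num) (by positivity) b0 lam0 lam1 (by positivity)
    (by norm_num) fl hr n1 n2
  have k2 := (hO _ Y (fun x => v x ^ 2) (1 / 2 ^ l) (bb l) lam hu.ms (hv.pow_const 2)
    (fun x hx => ⟨sq_nonneg _, h2 x hx⟩) s0.le s1 b0 lam0.le lam1).1
  have r1 : √lam < 1 := by rw [Real.sqrt_lt' one_pos]; linarith
  obtain ⟨k3, k4⟩ := hCS _ _ Y f 4 (bb l) √lam 0 bf b0 (Real.sqrt_nonneg _) r1 le_rfl one_pos
  rw [Real.mul_self_sqrt lam0.le] at k3 k4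
  rw [mul_zero, mul_zero] at k4
  have k5 := hZ _ _ Y f 4 (bb l) bf b0
  have k6 : 0 ≤ ph Y (bb l) 0 f := by rw [k5]; positivity
  have k7 : ph Y (bb l) 0 f ≤ ph Y (bb l) lam f := by
    rcases k6.eq_or_lt with h | h
    · rw [← h]; exact k3
    · rw [sq] at k4
      exact le_of_mul_le_mul_right k4 h
  refine (Finx.low b0 hu h1).trans (mul_le_mul_of_nonneg_left ?_ (Nat.cast_nonneg _))
  have k8 := Finx.pw l
  rw [s2] at k2
  have t0 : (0 : ℝ) < 1 / 4 ^ l := by positivity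
  have D4 : (1 : ℝ) ≤ D ^ 4 := one_le_pow₀ (by linarith)
  have k9 : (200 * D ^ 4 / 4 ^ l * 4 + 5 * (1 / 4 ^ l)) * (lam ^ (2 * l + 3))⁻¹ ≤
      (200 * D ^ 4 / 4 ^ l * 4 + 5 * (1 / 4 ^ l)) * (9 / 2) :=
    mul_le_mul_of_nonneg_left k8 (by positivity)
  have e1 : 200 * D ^ 4 / 4 ^ l = 200 * (D ^ 4 * (1 / 4 ^ l)) := by ring
  have e2 : 4000 * D ^ 4 / 4 ^ l = 4000 * (D ^ 4 * (1 / 4 ^ l)) := by ring
  have e3 : 1 / 4 ^ l ≤ D ^ 4 * (1 / 4 ^ l) := le_mul_of_one_le_left t0.le D4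
  rw [e1] at k9 k1
  rw [e2]
  refine le_trans (k5.symm.le.trans k7) ?_
  linarith

end Pool.Agent.MP_66cee2_co.B2K
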