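import Pool.Agent.MP_66cee2_co.B2E.Spec
import Pool.Agent.MP_66cee2_co.B2K.Gap

/-
Base two with an explicit threshold.
-/

namespace Pool.Agent.MP_66cee2_co.B2K

open MeasureTheory Set Filter Topology Pool.Agent.MP_66cee2_co.X Pool.Agent.MP_66cee2_co.B

theorem smallE : ∀ᶠ l : ℕ in FF, 4 * (2 * l + 3 : ℝ) ^ 8 < 2 ^ l := by
  filter_upwards [evge 4998 le_rfl] with l h
  have l1 : (4998 : ℝ) ≤ l := by exact_mod_cast h
  have h1 : Real.exp (1 / 2) ≤ 2 := by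
    have h := Real.log_two_gt_d9
    rw [← Real.le_log_iff_exp_le (by norm_num)]
    linarith
  have h2 : Real.exp (1 / 2 * l) ≤ 2 ^ l := by
    rw [mul_comm, Real.exp_nat_mul]
    exact pow_le_pow_left₀ (Real.exp_pos _).le h1 l
  have h3 := Real.quadratic_le_exp_of_nonneg (x := 1 / 16 * (l : ℝ)) (by positivity)
  have h4 : 2 * (2 * l + 3 : ℝ) ≤ Real.exp (1 / 16 * l) := by nlinarith
  have h5 : Real.exp (1 / 2 * l) = Real.exp (1 / 16 * l) ^ 8 := by
    rw [← Real.exp_nat_mul]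
    congr 1
    push_cast
    ring
  have h6 := pow_le_pow_left₀ (by positivity) h4 8
  have h7 : 0 < (2 * l + 3 : ℝ) ^ 8 := by positivity
  rw [mul_pow] at h6
  linarith

theorem sGapE : SCS → SZero → SDecay → STestE → SLogC → SGapE := by
  intro hC hZ hD hT hL
  filter_upwards [hT, smallE, evge 40 (by norm_num)] with l h1 h2 h3
  intro ι _ Y p q hp hq hq1 hF hm h0
  obtain ⟨t1, t2⟩ := h1 ι Y p q hp hq hq1 hF hm
  have l40 : (40 : ℝ) ≤ l := by exact_mod_cast h3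
  have l0 : (0 : ℝ) < l := by linarith
  obtain ⟨D, hDd⟩ : ∃ D : ℝ, D = 2 * l + 3 := ⟨_, rfl⟩
  have D1 : 83 ≤ D := by linarith
  have D0 : 0 < D := by linarith
  have b0 : 0 < bb l := by unfold bb; positivity
  have t0 : 0 < tt l := by unfold tt; positivity
  have lt1 : ∀ x : ℝ, 0 < x → Real.exp (-x) < 1 := fun x hx =>
    Real.exp_lt_one_iff.2 (by linarith)
  have cs : ∀ j : ℕ, 1 ≤ j → 0 ≤ ph Y (bb l) (Real.exp (-((j : ℕ) * tt l))) p ∧
      ph Y (bb l) (Real.exp (-(((j + 1 : ℕ) : ℝ) * tt l))) p ^ 2 ≤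
        ph Y (bb l) (Real.exp (-((j : ℕ) * tt l))) p *
          ph Y (bb l) (Real.exp (-(((j + 2 : ℕ) : ℝ) * tt l))) p := fun j hj => by
    have j0 : (0 : ℝ) < j := by exact_mod_cast hj
    have := hC _ ι Y p _ (bb l) (Real.exp (-(j * tt l / 2))) (Real.exp (-((j + 2) * tt l / 2))) hp b0
      (Real.exp_pos _).le (lt1 _ (by positivity)) (Real.exp_pos _).le (lt1 _ (by positivity))
    simp only [← Real.exp_add] at this
    rw [show -(j * tt l / 2) + -(j * tt l / 2) = -((j : ℝ) * tt l) by ring,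
      show -(j * tt l / 2) + -((j + 2) * tt l / 2) = -(((j + 1 : ℕ) : ℝ) * tt l) by
        push_cast; ring,
      show -((j + 2) * tt l / 2) + -((j + 2) * tt l / 2) = -(((j + 2 : ℕ) : ℝ) * tt l) by
        push_cast; ring] at this
    exact this
  rw [← hDd] at t1 t2 h2
  have D4 : (1 : ℝ) ≤ D ^ 4 := one_le_pow₀ (by linarith)
  have e1 : (2 * (6 * D ^ 4) + 1) * (3 / D ^ 5) ≤ 1 / 2 := by
    rw [← mul_div_assoc, div_le_div_iff₀ (by positivity) (by positivity)]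
    have : 83 * D ^ 4 ≤ D * D ^ 4 := mul_le_mul_of_nonneg_right D1 (by positivity)
    have e : D ^ 5 = D * D ^ 4 := by ring
    linarith
  have e0 : 0 ≤ 3 / D ^ 5 := by positivity
  have e2 : 3 / D ^ 5 ≤ 1 / 4 := by
    have := mul_le_mul_of_nonneg_right (show (2 : ℝ) ≤ 2 * (6 * D ^ 4) + 1 by linarith) e0
    linarith
  have k1 := hL (fun j => ph Y (bb l) (Real.exp (-((j : ℕ) * tt l))) p) (3 / D ^ 5) e0 e2
    (fun j hj => (cs j hj).1) (fun j hj => (cs j hj).2) t1 t2 (6 * (2 * l + 3) ^ 4)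
  have c1 : ((6 * (2 * l + 3) ^ 4 : ℕ) : ℝ) = 6 * D ^ 4 := by
    rw [hDd]
    push_cast
    ring
  have c2 : ((7 + 6 * (2 * l + 3) ^ 4 : ℕ) : ℝ) = 7 + 6 * D ^ 4 := by
    rw [Nat.cast_add, c1]
    norm_num
  have c3 : ((2 * l + 3 : ℕ) : ℝ) = D := by
    rw [hDd]
    push_cast
    ring
  simp only [c1, c2] at k1
  have x1 : 2 * l ≤ (7 + 6 * D ^ 4) * tt l := by
    have e : 6 * D ^ 4 * tt l = 12 * D ^ 2 / (21 * l) := by
      unfold tt bb
      rw [← hDd]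
      field_simp
      ring
    have e' : 2 * l ≤ 12 * D ^ 2 / (21 * l) := by
      rw [le_div_iff₀ (by positivity)]
      have : (2 * l : ℝ) ^ 2 ≤ D ^ 2 := pow_le_pow_left₀ (by positivity) (by linarith) 2
      nlinarith
    rw [add_mul, e]
    linarith
  have k2 := hD _ ι Y p _ (bb l) (Real.exp (-((7 + 6 * D ^ 4) * tt l))) hp (by positivity) b0
    (Real.exp_pos _).le (lt1 _ (by positivity))
  rw [hZ _ ι Y p _ (bb l) hp b0, c3, ← hDd] at k2
  simp only [h0, ne_eq, OfNat.ofNat_ne_zero, not_false_eq_true, zero_pow, Finset.sum_const_zero,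
    zero_add] at k2
  have k3 := Gapx.exp_le l _ x1
  obtain ⟨z, hz⟩ : ∃ z : ℝ, z = Real.exp (-((7 + 6 * D ^ 4) * tt l)) := ⟨_, rfl⟩
  have z0 : 0 < z * 2 ^ l := by rw [hz]; positivity
  rw [← hz] at k1 k2 k3
  have k4 := mul_lt_mul_of_pos_left h2 z0
  have k5 : 2 * (D ^ 7 * 2 ^ l) * z * D = z * 2 ^ l * (4 * D ^ 8) / 2 := by ring
  have k6 : z * 2 ^ l * 2 ^ l = z * (2 ^ l * 2 ^ l) := by ring
  linarith

end Pool.Agent.MP_66cee2_co.B2K
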