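import Pool.Agent.MP_66cee2_co.B2E.Spec
import Pool.Agent.MP_66cee2_co.B2K.H44Near

/-
Base two with an explicit threshold.
-/

namespace Pool.Agent.MP_66cee2_co.B2K.H44

open MeasureTheory Set Filter Polynomial Pool.Agent.MP_66cee2_co.X Pool.Agent.MP_66cee2_co.B

theorem sNearE : SNearE := by
  filter_upwards [evge 14 (by norm_num)] with l hl a ha hb
  obtain ⟨r, κ, h1, h2⟩ := one_d l
  have p4 : (0 : ℝ) < 4 ^ l := by positivity
  have l0 : (0 : ℝ) ≤ l := Nat.cast_nonneg l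
  have n1 : (128 : ℝ) * (2 * l + 1) ^ 4 / 4 ^ l ≤ 1 := (div_le_one p4).2 (num l hl)
  have n2 : (128 : ℝ) * (2 * l + 1) ^ 4 / 4 ^ l + 1 / 4 ^ l ≤
      200 * (2 * l + 3 : ℝ) ^ 4 / 4 ^ l := by
    rw [← add_div]
    refine div_le_div_of_nonneg_right ?_ p4.le
    have b1 : (2 * l + 1 : ℝ) ^ 4 ≤ (2 * l + 3) ^ 4 :=
      pow_le_pow_left₀ (by positivity) (by linarith) 4
    have b2 : (1 : ℝ) ≤ (2 * l + 3) ^ 4 := one_le_pow₀ (by linarith)
    linarith
  have n3 : (0 : ℝ) < 1 / 4 ^ l := by positivity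
  refine ⟨κ, r, h1, fun k => ?_, fun k => ?_⟩
  · obtain ⟨b1, b2, -⟩ := h2 k
    rcases le_total |k| 2 with h | h
    · have : Real.exp (-k ^ 2 / (4 * a)) ≤ 1 := Real.exp_le_one_iff.2
        (div_nonpos_of_nonpos_of_nonneg (neg_nonpos.2 (sq_nonneg _)) (by positivity))
      linarith [b1 h]
    · have k2 : (4 : ℝ) ≤ k ^ 2 := by
        have := pow_le_pow_left₀ (by norm_num) h 2
        rw [sq_abs] at this
        linarith
      have a1 : a * (2 * l + 3) ≤ 1 := (le_div_iff₀ (by positivity)).1 hb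
      have : Real.exp (-k ^ 2 / (4 * a)) ≤ Real.exp (-(2 * l + 3 : ℝ)) := by
        refine Real.exp_le_exp.2 ?_
        rw [div_le_iff₀ (by positivity)]
        nlinarith
      linarith [far l]
  · obtain ⟨-, -, b3⟩ := h2 k
    have := Real.exp_pos (-k ^ 2 / (4 * a))
    linarith

end Pool.Agent.MP_66cee2_co.B2K.H44
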