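import Pool.Agent.MP_66cee2_co.B2E.Spec
import Pool.Agent.MP_66cee2_co.B2K.Par

/-
Base two with an explicit threshold.
-/

namespace Pool.Agent.MP_66cee2_co.B2K

open Filter

theorem sParE : SParE := by
  filter_upwards [evge 2 (by norm_num)] with l hl j hj lam h
  have hL : (2 : ℝ) ≤ l := by exact_mod_cast hl
  have j1 : (6 : ℝ) ≤ j ∧ (j : ℝ) ≤ 7 := by
    rcases hj with rfl | rfl <;> norm_num
  obtain ⟨j1, j2⟩ := j1
  have l0 : (0 : ℝ) < l := by linarith
  have j0 : (0 : ℝ) < j := by linarith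
  have hx : 0 < j * tt l := by
    unfold tt bb
    positivity
  have e : (2 * l + 3 : ℝ) * (j * tt l) = 2 * j / (21 * l * (2 * l + 3)) := by
    unfold tt bb
    field_simp
  have h7 : (2 * l + 3 : ℝ) * (j * tt l) ≤ 7 / 100 := by
    rw [e, div_le_iff₀ (by positivity)]
    nlinarith
  have hx1 : j * tt l ≤ 1 / 100 := by nlinarith
  obtain ⟨a1, a2⟩ := Parx.core l (bb l) (21 / (2 * j)) (j * tt l) lam l0 hx hx1
    (by unfold tt; field_simp) (by rw [le_div_iff₀ (by positivity)]; linarith)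
    (by rw [div_le_iff₀ (by positivity)]; linarith) h
  refine ⟨a1, a2, ?_⟩
  have h2 : 1 / 2 ≤ lam ^ (2 * l + 3) := by
    rw [h, ← Real.exp_nat_mul]
    have := Real.add_one_le_exp (((2 * l + 3 : ℕ) : ℝ) * -(j * tt l))
    push_cast at this ⊢
    linarith
  rw [inv_le_comm₀ (by linarith) (by norm_num)]
  linarith

end Pool.Agent.MP_66cee2_co.B2K
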