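import Pool.Agent.MP_66cee2_co.B2E.Spec
import Pool.Agent.MP_66cee2_co.B2K.Small

/-
Base two with an explicit threshold.
-/

namespace Pool.Agent.MP_66cee2_co.B2K

open MeasureTheory Set Filter Pool.Agent.MP_66cee2_co.X Pool.Agent.MP_66cee2_co.B

theorem sSmallE : SFinE → SSmallE := by
  intro hF
  filter_upwards [hF] with l hl n Y β s hn hP hV hs hβ
  set u : Option (Fin n) → E (2 * l + 3) → ℝ := fun o x =>
    o.elim √(1 - 2 * s) fun i => √2 * β x i with hu
  have key : ∀ x ∈ Y, ∀ y ∈ Y, ∑ o, u o x * u o y = 1 - ‖β x - β y‖ ^ 2 := by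
    intro x hx y hy
    have h1 := hβ x hx
    have h2 := hβ y hy
    rw [EuclideanSpace.real_norm_sq_eq] at h1 h2 ⊢
    rw [Fintype.sum_option]
    simp only [hu, Option.elim_none, Option.elim_some, PiLp.sub_apply]
    rw [Real.mul_self_sqrt (by linarith)]
    have e1 : ∑ i, √2 * β x i * (√2 * β y i) = 2 * ∑ i, β x i * β y i := by
      rw [Finset.mul_sum]
      refine Finset.sum_congr rfl fun i _ => ?_
      have := Real.mul_self_sqrt (show (0 : ℝ) ≤ 2 by norm_num)
      linear_combination (β x i * β y i) * this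
    have e2 : ∑ i, (β x i - β y i) ^ 2 =
        ∑ i, β x i ^ 2 + ∑ i, β y i ^ 2 - 2 * ∑ i, β x i * β y i := by
      simp only [Finset.mul_sum, ← Finset.sum_add_distrib, ← Finset.sum_sub_distrib]
      exact Finset.sum_congr rfl fun i _ => by ring
    rw [e1, e2, h1, h2]
    ring
  have one : ∀ x ∈ Y, ∑ o, u o x ^ 2 = 1 := fun x hx => by
    have := key x hx x hx
    simp only [sub_self, norm_zero, ← sq] at this
    rw [this]
    norm_num
  have hm : ∀ o, Measurable (u o) := by
    rintro (_ | i)
    · exact measurable_const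
    · have := hP.meas
      simp only [hu, Option.elim_some]
      fun_prop
  obtain ⟨B, hB⟩ := hV
  have h := hl (Option (Fin n)) Y u (fun _ => 0)
    ⟨hP.ms, hP.bdd, hm, fun x hx => by rw [one x hx]; norm_num⟩ measurable_const
    (fun x hx => (one x hx).ge) (fun x _ => by norm_num)
    ⟨√|B|, fun x hx y hy => by
      rw [key x hx y hy, mul_zero, sub_zero]
      refine abs_le_of_sq_le_sq' ?_ (by positivity) |> abs_le.2
      rw [mul_pow, Real.sq_sqrt (abs_nonneg B), ← pow_mul, mul_comm (l + 2) 2]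
      exact (hB x hx y hy).trans
        (mul_le_mul_of_nonneg_right (le_abs_self B) (by positivity))⟩
  rw [Fintype.card_option, Fintype.card_fin] at h
  push_cast at h
  have d0 : (0 : ℝ) < 2 * l + 3 := by positivity
  refine (abs_le_of_sq_le_sq' (h.trans ?_) (by positivity)).2
  rw [← mul_div_assoc, div_pow, one_pow, div_le_div_iff₀ (by positivity) (by positivity)]
  calc _ = ((n : ℝ) + 1) * (4000 * (2 * l + 3 : ℝ) ^ 16) := by ring
    _ ≤ 1 * 4 ^ l := by linarith

end Pool.Agent.MP_66cee2_co.B2K
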