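import Pool.Agent.MP_66cee2_co.B2E.Spec
import Pool.Agent.MP_66cee2_co.B2K.H54Test

/-
Base two with an explicit threshold.
-/

namespace Pool.Agent.MP_66cee2_co.B2K.H54

open MeasureTheory Set Filter Polynomial Pool.Agent.MP_66cee2_co.X Pool.Agent.MP_66cee2_co.B

theorem numE : ∀ᶠ l : ℕ in FF, Real.exp (-(73 / 100 * l)) *
    ((2 * l + 3 : ℝ) ^ 7 * 2 ^ l + 1) * 2 ≤ 1 / (2 * l + 3 : ℝ) ^ 5 := by
  filter_upwards [evge 4998 le_rfl] with l h2
  have l1 : (4998 : ℝ) ≤ l := by exact_mod_cast h2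
  have h4 : 4 * (2 * l + 3 : ℝ) ^ 12 ≤ Real.exp (3 / 100 * l) := by
    have h3 := Real.pow_div_factorial_le_exp (1 / 400 * (l : ℝ)) (by positivity) 10
    have f : ((Nat.factorial 10 : ℕ) : ℝ) = 3628800 := by norm_num [Nat.factorial]
    rw [f] at h3
    have x1 : (12 : ℝ) ≤ 1 / 400 * l := by linarith
    have x2 := pow_le_pow_left₀ (by norm_num) x1 9
    have x3 : 6 / 5 * (2 * l + 3 : ℝ) ≤ Real.exp (1 / 400 * l) := by
      refine le_trans ?_ h3
      rw [le_div_iff₀ (by norm_num), pow_succ]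
      nlinarith [mul_le_mul_of_nonneg_right x2 (show (0 : ℝ) ≤ 1 / 400 * l by positivity)]
    have h5 : Real.exp (3 / 100 * l) = Real.exp (1 / 400 * l) ^ 12 := by
      rw [← Real.exp_nat_mul]
      congr 1
      push_cast
      ring
    have x4 := pow_le_pow_left₀ (by positivity) x3 12
    have x5 : 0 < (2 * l + 3 : ℝ) ^ 12 := by positivity
    rw [mul_pow] at x4
    rw [h5]
    linarith
  have h6 : (1 : ℝ) ≤ (2 * l + 3 : ℝ) ^ 7 * 2 ^ l :=
    one_le_mul_of_one_le_of_one_le (one_le_pow₀ (by linarith)) (one_le_pow₀ (by norm_num))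
  have h7 : Real.exp (-(73 / 100 * l)) * (Real.exp (3 / 100 * l) * Real.exp (7 / 10 * l)) = 1 := by
    rw [← Real.exp_add, ← Real.exp_add, ← Real.exp_zero]
    congr 1
    ring
  have e0 := Real.exp_pos (-(73 / 100 * (l : ℝ)))
  rw [le_div_iff₀ (by positivity)]
  calc Real.exp (-(73 / 100 * l)) * ((2 * l + 3 : ℝ) ^ 7 * 2 ^ l + 1) * 2 * (2 * l + 3 : ℝ) ^ 5
      ≤ Real.exp (-(73 / 100 * l)) * ((2 * l + 3 : ℝ) ^ 7 * 2 ^ l + (2 * l + 3 : ℝ) ^ 7 * 2 ^ l) *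
        2 * (2 * l + 3 : ℝ) ^ 5 := by gcongr
    _ = Real.exp (-(73 / 100 * l)) * ((4 * (2 * l + 3 : ℝ) ^ 12) * 2 ^ l) := by ring
    _ ≤ Real.exp (-(73 / 100 * l)) * (Real.exp (3 / 100 * l) * Real.exp (7 / 10 * l)) :=
        mul_le_mul_of_nonneg_left
          (mul_le_mul h4 (two_pow l) (by positivity) (Real.exp_pos _).le) e0.le
    _ = 1 := h7

theorem sTestE : SLP → SApxE → SParE → SOne → STestE := by
  intro hLP hA hP hO
  filter_upwards [hA, hP, numE, evge 1 (by norm_num)] with l hA hP hn h1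
  intro ι _ Y p q hp hq hq1 hF hI
  obtain ⟨B, hB⟩ := hF
  have l1 : (1 : ℝ) ≤ l := by exact_mod_cast h1
  have b0 : 0 < bb l := by unfold bb; positivity
  have t0 : 0 < tt l := by unfold tt; positivity
  have hQ : Bd Y (fun _ : Unit => q) 1 := by
    refine ⟨hp.ms, hp.bdd, fun _ => hq, fun x hx => ?_⟩
    obtain ⟨c1, c2⟩ := hq1 x hx
    rw [Fintype.sum_unique]
    nlinarith
  set A : ℝ := (2 * l + 3 : ℝ) ^ 7 * 2 ^ l with hAdef
  have A0 : 0 ≤ A := by positivity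
  set m : ℝ := Real.exp (-(73 / 100 * l)) with hm
  have m0 : 0 ≤ m := (Real.exp_pos _).le
  have e0 : (0 : ℝ) ≤ 1 / (2 * l + 3 : ℝ) ^ 5 := by positivity
  have e3 : (3 : ℝ) / (2 * l + 3 : ℝ) ^ 5 = 3 * (1 / (2 * l + 3 : ℝ) ^ 5) := by ring
  have lam1 : ∀ j : ℕ, j = 6 ∨ j = 7 → Real.exp (-(j * tt l)) < 1 := by
    intro j hj
    have : (0 : ℝ) < j := by rcases hj with rfl | rfl <;> norm_num
    rw [← Real.exp_zero]
    exact Real.exp_lt_exp.2 (by nlinarith)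
  have err : ∀ z : ℝ, z ≤ 2 → m * (A + 1) * z ≤ 1 / (2 * l + 3 : ℝ) ^ 5 := fun z hz =>
    (mul_le_mul_of_nonneg_left hz (by positivity)).trans hn
  rw [e3]
  constructor
  · obtain ⟨a1, a2, a3⟩ := hP 6 (Or.inl rfl) _ rfl
    obtain ⟨κ, r, hr, he⟩ := hA _ a1 a2
    have h := hLP l ι Unit Y p (fun _ => q) A 1 B (bb l) _ κ m m r hp hQ A0 zero_le_one b0
      (Real.exp_pos _) (lam1 6 (Or.inl rfl)) m0 m0
      (fun x hx y hy => by rw [Fintype.sum_unique (ι := Unit)]; exact hB x hx y hy) hr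
      (fun k => by linarith [(abs_le.1 (he k)).1]) (fun k => by linarith [(abs_le.1 (he k)).2])
    have h2 := (hO _ Y q 1 (bb l) _ hp.ms hq hq1 zero_le_one le_rfl b0 (Real.exp_pos _).le
      (lam1 6 (Or.inl rfl))).1
    have h3 := err _ a3
    have h4 : m * A + m * 1 = m * (A + 1) := by ring
    rw [h4] at h
    refine (h.trans (add_le_add h2 h3)).trans ?_
    generalize (1 : ℝ) / (2 * l + 3 : ℝ) ^ 5 = e at e0 ⊢
    linarith
  · obtain ⟨a1, a2, a3⟩ := hP 7 (Or.inr rfl) _ rfl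
    obtain ⟨κ, r, hr, he⟩ := hA _ a1 a2
    have h := hLP l Unit ι Y (fun _ => q) p 1 A B (bb l) _ κ m m r hQ hp zero_le_one A0 b0
      (Real.exp_pos _) (lam1 7 (Or.inr rfl)) m0 m0
      (fun x hx y hy => by rw [Fintype.sum_unique, abs_sub_comm]; exact hB x hx y hy) hr
      (fun k => by linarith [(abs_le.1 (he k)).1]) (fun k => by linarith [(abs_le.1 (he k)).2])
    have h2 := (hO _ Y q 1 (bb l) _ hp.ms hq hq1 zero_le_one le_rfl b0 (Real.exp_pos _).le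
      (lam1 7 (Or.inr rfl))).2
    have h3 := err _ a3
    have h4 : m * 1 + m * A = m * (A + 1) := by ring
    rw [h4] at h
    have h5 := h2.trans (h.trans (add_le_add le_rfl h3))
    generalize (1 : ℝ) / (2 * l + 3 : ℝ) ^ 5 = e at e0 h5 hI ⊢
    linarith

end Pool.Agent.MP_66cee2_co.B2K.H54
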