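import Pool.Agent.MP_66cee2_co.B2E.Asm
import Pool.Agent.MP_66cee2_co.B2E.Apx
import Pool.Agent.MP_66cee2_co.B2E.Near
import Pool.Agent.MP_66cee2_co.B2E.Par
import Pool.Agent.MP_66cee2_co.B2E.Fin
import Pool.Agent.MP_66cee2_co.B2E.Full
import Pool.Agent.MP_66cee2_co.B2E.Small
import Pool.Agent.MP_66cee2_co.B2E.Gap
import Pool.Agent.MP_66cee2_co.B2E.Test
import Pool.Agent.MP_66cee2_co.B2K.H12Rows
import Pool.Agent.MP_66cee2_co.B2K.Decay
import Pool.Agent.MP_66cee2_co.B2K.LP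
import Pool.Agent.MP_66cee2_co.B2K.LogC
import Pool.Agent.MP_66cee2_co.B2K.One
import Pool.Agent.MP_66cee2_co.B2K.CovA
import Pool.Agent.MP_66cee2_co.B2K.H17Tail
import Pool.Agent.MP_66cee2_co.B2K.Kar
import Pool.Agent.MP_66cee2_co.D.SJ3
import Pool.Agent.MP_66cee2_co.D.AllX
import Pool.Agent.MP_66cee2_co.XT.TR

/-
Base two with an explicit threshold: the theorem.
-/

namespace Pool.Agent.MP_66cee2_co.B2K

theorem rowFinE : SFinE := sFinE H12.sCS H12.sZero (sOne H12.sBasic) (sLP H12.sFac) H44.sNearE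

theorem rowGapE : SGapE :=
  sGapE H12.sCS H12.sZero (sDecay H12.sBasic)
    (H54.sTestE (sLP H12.sFac) sApxE sParE (sOne H12.sBasic)) sLogC

theorem sBaseE : SBaseE :=
  baseE_of D.sJ3 D.sTrAll XT.rowODD sCovA H17.sTail (H68.sFullE sKar rowFinE rowGapE)
    (sSmallE rowFinE)

end Pool.Agent.MP_66cee2_co.B2K
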