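import Pool.Agent.MP_66cee2_co.B2E.Spec
import Pool.Agent.MP_66cee2_co.D.Defs

/-
Base two: the assembly with a polynomial loss.
-/

namespace Pool.Agent.MP_66cee2_co.B2K

open MeasureTheory Set Filter Metric Topology Polynomial Pool.Agent.MP_66cee2_co.X
  Pool.Agent.MP_66cee2_co.XI Pool.Agent.MP_66cee2_co.B

/-- the theorem, with a polynomial loss. -/
def SBaseE : Prop :=
  ∀ d n : ℕ, 10000 ≤ d → 64000 * (n + 1) * d ^ 16 ≤ 2 ^ d → XT.AllIso d n

theorem baseE_of (hJ : D.SJ3) (hT : D.STr) (hO : XT.RowODD) (hCov : SCovA) (hTail : STail)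
    (hF : SFullE) (hS : SSmallE) : SBaseE := by
  have h := FF_get (hF.and hS)
  intro d n hd hn
  obtain ⟨l, hl, e⟩ : ∃ l, 4998 ≤ l ∧ (d = 2 * l + 3 ∨ d = 2 * l + 3 + 1) :=
    ⟨(d - 3) / 2, by omega, by omega⟩
  obtain ⟨hF', hS'⟩ := h l hl
  have hnat : (n + 1) * (4000 * (2 * l + 3) ^ 16) ≤ 4 ^ l := by
    have a1 : (2 * l + 3) ^ 16 ≤ d ^ 16 := Nat.pow_le_pow_left (by omega) 16
    have a2 : 2 ^ d ≤ 2 ^ (2 * l + 4) := Nat.pow_le_pow_right (by norm_num) (by omega)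
    have a3 : 2 ^ (2 * l + 4) = 16 * 4 ^ l := by
      rw [pow_add, pow_mul]; norm_num [mul_comm]
    have a4 : 64000 * (n + 1) * (2 * l + 3) ^ 16 ≤ 64000 * (n + 1) * d ^ 16 :=
      Nat.mul_le_mul_left _ a1
    have a5 : 16 * ((n + 1) * (4000 * (2 * l + 3) ^ 16)) = 64000 * (n + 1) * (2 * l + 3) ^ 16 := by
      generalize (2 * l + 3) ^ 16 = z
      ring
    have a6 : 16 * ((n + 1) * (4000 * (2 * l + 3) ^ 16)) ≤ 16 * 4 ^ l := by
      rw [a5, ← a3]; exact a4.trans (hn.trans a2)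
    exact Nat.le_of_mul_le_mul_left a6 (by norm_num)
  have hnum : ((n : ℝ) + 1) * (4000 * (2 * l + 3 : ℝ) ^ 16) ≤ 4 ^ l := by exact_mod_cast hnat
  have hb : 0 < bb l := by unfold bb; positivity
  have hε : (0 : ℝ) < 1 / (2 * l + 3 : ℝ) ^ 6 := by positivity
  obtain ⟨R, δ, hR, hδ, hT'⟩ := hTail (2 * l + 3) (bb l) _ hb hε
  have h1 : XT.AllIso (2 * l + 3) n := by
    refine hT _ n (by omega) fun P hP => ?_
    obtain ⟨u, hu⟩ := hJ _ n (by omega) P hP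
    rcases hCov _ n (2 * (l + 2)) P u R δ (by omega) (by omega) hP hu hR hδ with
      h | ⟨Y, β, hY, hs, hcov⟩
    · exact h
    · exfalso
      have h2 := hT' Y (fun c => ⟨(hY c).1.ms, (hY c).2.2⟩) hcov
      have h3 : ∀ c : Fin 4, c ≠ 2 → ∫ x in Y c, G _ (bb l) x ≤ 1 / (2 * l + 3 : ℝ) ^ 6 := by
        intro c hc
        obtain ⟨s, hs1, hs2⟩ := hs c hc
        exact hS' n (Y c) (β c) s hnum (hY c).1 (hY c).2.1 hs1 hs2
      have h4 := hF' n (Y 2) (β 2) hnum (hY 2).1 (hY 2).2.1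
      have h5 := h3 0 (by decide)
      have h6 := h3 1 (by decide)
      have h7 := h3 3 (by decide)
      rw [Fin.sum_univ_four] at h2
      have h8 : (4 : ℝ) / (2 * l + 3 : ℝ) ^ 6 = 4 * (1 / (2 * l + 3 : ℝ) ^ 6) := by ring
      linarith
  rcases e with rfl | rfl
  · exact h1
  · exact hO _ n (by omega) h1

end Pool.Agent.MP_66cee2_co.B2K
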