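import Pool.Agent.MP_66cee2_co.B2K.Spec

/-
Base two with an explicit threshold: statements.
-/

namespace Pool.Agent.MP_66cee2_co.B2K

open MeasureTheory Set Filter Metric Topology Polynomial Pool.Agent.MP_66cee2_co.X
  Pool.Agent.MP_66cee2_co.XI Pool.Agent.MP_66cee2_co.B
open scoped ENNReal RealInnerProductSpace

/-- the numbers from `4998` on. -/
def FF : Filter ℕ := 𝓟 (Ici 4998)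

theorem evge (k : ℕ) (h : k ≤ 4998) : ∀ᶠ l : ℕ in FF, k ≤ l :=
  eventually_principal.2 fun _ hl => h.trans hl

theorem FF_get {p : ℕ → Prop} (h : ∀ᶠ l : ℕ in FF, p l) (l : ℕ) (hl : 4998 ≤ l) : p l :=
  eventually_principal.1 h l hl

def SApxE : Prop :=
  ∀ᶠ l : ℕ in FF, ∀ a : ℝ, 74 / 100 * l ≤ a → a ≤ 88 / 100 * l → ∃ (κ : ℝ) (r : ℝ[X]),
    r.natDegree ≤ l ∧ ∀ k : ℝ, |κ * Phi (r.comp (X ^ 2)) k - Real.exp (-k ^ 2 / (4 * a))| ≤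
      Real.exp (-(73 / 100 * l))

def SNearE : Prop :=
  ∀ᶠ l : ℕ in FF, ∀ a : ℝ, 0 < a → a ≤ 1 / (2 * l + 3 : ℝ) → ∃ (κ : ℝ) (r : ℝ[X]),
    r.natDegree ≤ l ∧
    (∀ k : ℝ, Real.exp (-k ^ 2 / (4 * a)) ≤
      κ * Phi (r.comp (X ^ 2)) k + 200 * (2 * l + 3 : ℝ) ^ 4 / 4 ^ l) ∧
    ∀ k : ℝ, κ * Phi (r.comp (X ^ 2)) k - 5 ≤ Real.exp (-k ^ 2 / (4 * a))

def SParE : Prop :=
  ∀ᶠ l : ℕ in FF, ∀ j : ℕ, j = 6 ∨ j = 7 → ∀ lam : ℝ, lam = Real.exp (-(j * tt l)) →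
    74 / 100 * l ≤ bb l * lam / (1 - lam ^ 2) ∧ bb l * lam / (1 - lam ^ 2) ≤ 88 / 100 * l ∧
      (lam ^ (2 * l + 3))⁻¹ ≤ 2

def STestE : Prop :=
  ∀ᶠ l : ℕ in FF, ∀ (ι : Type) [Fintype ι] (Y : Set (E (2 * l + 3)))
    (p : ι → E (2 * l + 3) → ℝ) (q : E (2 * l + 3) → ℝ),
    Bd Y p ((2 * l + 3 : ℝ) ^ 7 * 2 ^ l) → Measurable q → (∀ x ∈ Y, 0 ≤ q x ∧ q x ≤ 1) →
    Fl Y p q (l + 2) → 1 - 1 / (2 * l + 3 : ℝ) ^ 5 ≤ ∫ x in Y, G _ (bb l) x * q x →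
    ph Y (bb l) (Real.exp (-((6 : ℕ) * tt l))) p ≤ 1 + 3 / (2 * l + 3 : ℝ) ^ 5 ∧
      1 - 3 / (2 * l + 3 : ℝ) ^ 5 ≤ ph Y (bb l) (Real.exp (-((7 : ℕ) * tt l))) p

def SGapE : Prop :=
  ∀ᶠ l : ℕ in FF, ∀ (ι : Type) [Fintype ι] (Y : Set (E (2 * l + 3)))
    (p : ι → E (2 * l + 3) → ℝ) (q : E (2 * l + 3) → ℝ),
    Bd Y p ((2 * l + 3 : ℝ) ^ 7 * 2 ^ l) → Measurable q → (∀ x ∈ Y, 0 ≤ q x ∧ q x ≤ 1) →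
    Fl Y p q (l + 2) → 1 - 1 / (2 * l + 3 : ℝ) ^ 5 ≤ ∫ x in Y, G _ (bb l) x * q x →
    ¬ ∀ i, ∫ x in Y, G _ (bb l) x * p i x = 0

def SFinE : Prop :=
  ∀ᶠ l : ℕ in FF, ∀ (ι : Type) [Fintype ι] (Y : Set (E (2 * l + 3)))
    (u : ι → E (2 * l + 3) → ℝ) (v : E (2 * l + 3) → ℝ), Bd Y u 2 → Measurable v →
    (∀ x ∈ Y, 1 ≤ ∑ i, u i x ^ 2) → (∀ x ∈ Y, v x ^ 2 ≤ 1 / 2 ^ l) → Fl Y u v (l + 2) →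
    (∫ x in Y, G _ (bb l) x) ^ 2 ≤ Fintype.card ι * (4000 * (2 * l + 3 : ℝ) ^ 4 / 4 ^ l)

def SFullE : Prop :=
  ∀ᶠ l : ℕ in FF, ∀ (n : ℕ) (Y : Set (E (2 * l + 3))) (β : E (2 * l + 3) → E n),
    ((n : ℝ) + 1) * (4000 * (2 * l + 3 : ℝ) ^ 16) ≤ 4 ^ l → Pre Y β → Van Y β (2 * (l + 2)) →
    ∫ x in Y, G _ (bb l) x < 1 - 4 / (2 * l + 3 : ℝ) ^ 6

def SSmallE : Prop :=
  ∀ᶠ l : ℕ in FF, ∀ (n : ℕ) (Y : Set (E (2 * l + 3))) (β : E (2 * l + 3) → E n) (s : ℝ),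
    ((n : ℝ) + 1) * (4000 * (2 * l + 3 : ℝ) ^ 16) ≤ 4 ^ l → Pre Y β → Van Y β (2 * (l + 2)) →
    s ≤ 1 / 2 → (∀ x ∈ Y, ‖β x‖ ^ 2 = s) → ∫ x in Y, G _ (bb l) x ≤ 1 / (2 * l + 3 : ℝ) ^ 6

end Pool.Agent.MP_66cee2_co.B2K
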